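import Pool.Agent.Q131.SE.Theta

/-!
# The Hamiltonian function `± ‖m‖² / 2` near two disjoint compact sets
-/

set_option autoImplicit false

open Set Filter Topology
open scoped ContDiff Manifold

noncomputable section

namespace Pool.Agent.Q131.SE

open Pool.Agent.Q130.SC.Sym

variable {n : ℕ}

theorem cut {E : Type*} [NormedAddCommGroup E] [NormedSpace ℝ E] [FiniteDimensional ℝ E]
    {K U : Set E} (hK : IsCompact K) (hU : IsOpen U) (hKU : K ⊆ U) :
    ∃ f : E → ℝ, ContDiff ℝ ∞ f ∧ (∀ z ∈ K, ∀ᶠ w in 𝓝 z, f w = 1) ∧ ∀ z, z ∉ U → f z = 0 := by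
  obtain ⟨f, hf1, hf0, -⟩ := exists_contMDiffMap_one_nhds_of_subset_interior (n := (⊤ : ℕ∞))
    𝓘(ℝ, E) hK.isClosed (t := U) (by rwa [hU.interior_eq])
  refine ⟨f, f.contMDiff.contDiff, fun z hz => ?_, hf0⟩
  exact (eventually_nhdsSet_iff_forall.1 hf1) z hz

theorem exists_sign {A B : Set (R2 n)} (hA : IsCompact A) (hB : IsCompact B)
    (hAB : Disjoint A B) : ∃ s : R2 n → ℝ, ∃ R : ℝ, ContDiff ℝ ∞ s ∧
      (∀ z ∈ A, ∀ᶠ w in 𝓝 z, s w = 1) ∧ (∀ z ∈ B, ∀ᶠ w in 𝓝 z, s w = -1) ∧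
      ∀ z, z ∉ Metric.closedBall (0 : R2 n) R → s z = 0 := by
  obtain ⟨U, V, hU, hV, hAU, hBV, hUV⟩ := SeparatedNhds.of_isCompact_isCompact hA hB hAB
  obtain ⟨r, hr⟩ := (hA.union hB).isBounded.subset_ball (0 : R2 n)
  have hAr : A ⊆ U ∩ Metric.ball 0 r := fun z hz => ⟨hAU hz, hr (Or.inl hz)⟩
  have hBr : B ⊆ V ∩ Metric.ball 0 r := fun z hz => ⟨hBV hz, hr (Or.inr hz)⟩
  obtain ⟨f, f1, f2, f3⟩ := cut hA (hU.inter Metric.isOpen_ball) hAr
  obtain ⟨g, g1, g2, g3⟩ := cut hB (hV.inter Metric.isOpen_ball) hBr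
  refine ⟨fun z => f z - g z, r, f1.sub g1, fun z hz => ?_, fun z hz => ?_, fun z hz => ?_⟩
  · filter_upwards [f2 z hz, hU.mem_nhds (hAU hz)] with w hw hwU
    rw [hw, g3 w (fun h => Set.disjoint_left.1 hUV hwU h.1), sub_zero]
  · filter_upwards [g2 z hz, hV.mem_nhds (hBV hz)] with w hw hwV
    rw [hw, f3 w (fun h => Set.disjoint_left.1 hUV h.1 hwV), zero_sub]
  · have h1 : z ∉ Metric.ball (0 : R2 n) r := fun h => hz (Metric.ball_subset_closedBall h)
    change f z - g z = 0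
    rw [f3 z (fun h => h1 h.2), g3 z (fun h => h1 h.2), sub_zero]

theorem q_deriv (m : R2 n) : HasFDerivAt (fun m : R2 n => ip m m / 2) (ip m) m := by
  have h1 : HasFDerivAt (fun m : R2 n => ip m) ((flat n).comp (J n)) m :=
    ((flat n).comp (J n)).hasFDerivAt
  have h2 := (h1.clm_apply (hasFDerivAt_id m)).const_mul (1 / 2 : ℝ)
  have h3 : HasFDerivAt (fun m : R2 n => ip m m / 2) ((1 / 2 : ℝ) •
      ((ip m).comp (ContinuousLinearMap.id ℝ (R2 n)) + ((flat n).comp (J n)).flip (id m))) m := by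
    refine h2.congr_of_eventuallyEq (Eventually.of_forall fun x => ?_)
    change ip x x / 2 = 1 / 2 * ip x x
    ring
  have h4 : (1 / 2 : ℝ) • ((ip m).comp (ContinuousLinearMap.id ℝ (R2 n)) +
      ((flat n).comp (J n)).flip (id m)) = ip m := by
    refine ContinuousLinearMap.ext fun v => ?_
    change 1 / 2 * (ip m v + ip v m) = ip m v
    rw [ip_comm v m]
    ring
  rwa [h4] at h3

theorem q_smooth : ContDiff ℝ ∞ (fun m : R2 n => ip m m / 2) := by
  have h1 : ContDiff ℝ ∞ (fun m : R2 n => ip m) := ((flat n).comp (J n)).contDiff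
  exact (h1.clm_apply contDiff_id).div_const 2

/-- where `s` is locally constant, the Hamiltonian vector field of `s ‖m‖² / 2` is `s J m` -/
theorem ham_near (s : R2 n → ℝ) (σ : ℝ) (w : R2 n) (hs : ∀ᶠ m in 𝓝 w, s m = σ) :
    ∀ᶠ m in 𝓝 w, fderiv ℝ (ham fun m => s m * (ip m m / 2)) m = σ • J n := by
  have h1 : ∀ᶠ m in 𝓝 w, ham (fun m => s m * (ip m m / 2)) m = σ • J n m := by
    filter_upwards [hs.eventually_nhds] with m hm
    have h2 : (fun m => s m * (ip m m / 2)) =ᶠ[𝓝 m] fun m => σ * (ip m m / 2) := by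
      filter_upwards [hm] with x hx
      rw [hx]
    rw [ham, h2.fderiv_eq, ((q_deriv m).const_mul σ).fderiv, map_smul, sharp_ip]
  filter_upwards [h1.eventually_nhds] with m hm
  have h3 : ham (fun m => s m * (ip m m / 2)) =ᶠ[𝓝 m] fun m => (σ • J n) m := hm
  rw [h3.fderiv_eq]
  exact (σ • J n).hasFDerivAt.fderiv

theorem exists_ham {A B : Set (R2 n)} (hA : IsCompact A) (hB : IsCompact B)
    (hAB : Disjoint A B) : ∃ h : R2 n → ℝ, ∃ K : Set (R2 n), ContDiff ℝ ∞ h ∧ IsCompact K ∧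
      (∀ z, z ∉ K → ham h z = 0) ∧
      (∀ z ∈ A, ∀ᶠ m in 𝓝 z, fderiv ℝ (ham h) m = (1 : ℝ) • J n) ∧
      (∀ z ∈ B, ∀ᶠ m in 𝓝 z, fderiv ℝ (ham h) m = (-1 : ℝ) • J n) := by
  obtain ⟨s, R, h1, h2, h3, h4⟩ := exists_sign hA hB hAB
  refine ⟨fun m => s m * (ip m m / 2), Metric.closedBall 0 R, h1.mul q_smooth,
    isCompact_closedBall _ _, fun z hz => ?_, fun z hz => ham_near s 1 z (h2 z hz),
    fun z hz => ham_near s (-1) z (h3 z hz)⟩
  have h5 : (fun m => s m * (ip m m / 2)) =ᶠ[𝓝 z] fun _ => (0 : ℝ) := by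
    filter_upwards [Metric.isClosed_closedBall.isOpen_compl.mem_nhds hz] with x hx
    rw [h4 x hx, zero_mul]
  rw [ham, h5.fderiv_eq, fderiv_const_apply, map_zero]

end Pool.Agent.Q131.SE
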