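import Pool.Agent.Q131.SE.Main

/-!
# The isotopy
-/

set_option autoImplicit false

open Set Filter Topology
open scoped ContDiff

noncomputable section

namespace Pool.Agent.Q131.SE

open Pool.Agent.Q130.SC.Sym

variable {n : ℕ}

/-- the unit kernel vectors -/
def KV (P : R2 n →L[ℝ] R2 n) (φ : SympCt n) (K : Set (R2 n)) : Set (R2 n × R2 n) :=
  {p | p.1 ∈ K ∧ ip p.2 p.2 = 1 ∧ TT P (fderiv ℝ φ.map p.1) p.2 = -p.2}

theorem KV_compact (P : R2 n →L[ℝ] R2 n) (φ : SympCt n) {K : Set (R2 n)} (hK : IsCompact K) :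
    IsCompact (KV P φ K) := by
  have hAc : Continuous (fderiv ℝ φ.map) := φ.smooth.continuous_fderiv (by simp)
  refine (hK.prod (isCompact_closedBall (0 : R2 n) 1)).of_isClosed_subset ?_ ?_
  · refine (hK.isClosed.preimage continuous_fst).inter (IsClosed.inter ?_ ?_)
    · exact isClosed_eq ((ip_continuous.comp continuous_snd).clm_apply continuous_snd)
        continuous_const
    · exact isClosed_eq (((TT_continuous P).comp (hAc.comp continuous_fst)).clm_apply
        continuous_snd) continuous_snd.neg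
  · rintro ⟨z, v⟩ ⟨hz, hv1, -⟩
    refine ⟨hz, ?_⟩
    have hv1 : ip v v = 1 := hv1
    change v ∈ Metric.closedBall (0 : R2 n) 1
    rw [mem_closedBall_zero_iff]
    have := norm_sq_le v
    rw [hv1] at this
    nlinarith [norm_nonneg v]

theorem KV_mem (P : R2 n →L[ℝ] R2 n) (φ : SympCt n) {K : Set (R2 n)} (hK : IsCompact K)
    (hoff : ∀ z, z ∉ K → φ.map z = z) (z u : R2 n) (h : TT P (fderiv ℝ φ.map z) u = -u)
    (hu : ip u u = 1) : (z, u) ∈ KV P φ K := by
  refine ⟨?_, hu, h⟩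
  by_contra hne
  have hev : (φ.map : R2 n → R2 n) =ᶠ[𝓝 z] id := by
    filter_upwards [hK.isClosed.isOpen_compl.mem_nhds hne] with x hx
    exact hoff x hx
  rw [hev.fderiv_eq, fderiv_id, TT_apply] at h
  have e0 : (ContinuousLinearMap.id ℝ (R2 n)) u - u = 0 := sub_self _
  rw [e0, map_zero] at h
  have h3 : u = 0 := neg_eq_zero.1 h.symm
  rw [h3, map_zero] at hu
  norm_num at hu

/-- the determinant attached to a unit kernel vector -/
def dd (P : R2 n →L[ℝ] R2 n) (φ : SympCt n) (z u : R2 n) : ℝ :=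
  dt (TT P (fderiv ℝ φ.map z)) (SS P (fderiv ℝ φ.map z)) 1 u

theorem dd_cont (P : R2 n →L[ℝ] R2 n) (φ : SympCt n) :
    Continuous (fun p : R2 n × R2 n => dd P φ p.1 p.2) := by
  have hAc : Continuous (fderiv ℝ φ.map) := φ.smooth.continuous_fderiv (by simp)
  exact (dt_continuous (n := n)).comp (((TT_continuous P).comp (hAc.comp continuous_fst)).prodMk
    (((SS_continuous P).comp (hAc.comp continuous_fst)).prodMk
      (continuous_const.prodMk continuous_snd)))

theorem dd_ne (P : R2 n →L[ℝ] R2 n) (hP : ∀ u v, omega (P u) v + omega u (P v) = omega u v)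
    (φ : SympCt n) (z u x : R2 n) (hx : ∀ v, TT P (fderiv ℝ φ.map z) v = -v →
    ∃ c : ℝ, v = c • x) (h : TT P (fderiv ℝ φ.map z) u = -u) (hu : ip u u = 1) :
    dd P φ z u ≠ 0 := by
  rw [dd, dt_def]
  exact det_ne_zero _ fun y hy => MX_inj P hP _ (φ.symplectic z) u h hu x hx y hy

theorem bounded_of_off {F : Type*} [NormedAddCommGroup F] (f : R2 n → F) (hf : Continuous f)
    {K : Set (R2 n)} (hK : IsCompact K) (hoff : ∀ z, z ∉ K → f z = 0) :
    ∃ C : ℝ, ∀ z, ‖f z‖ ≤ C := by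
  obtain ⟨C, hC⟩ := hK.exists_bound_of_continuousOn hf.continuousOn
  refine ⟨max C 0, fun z => ?_⟩
  by_cases hz : z ∈ K
  · exact (hC z hz).trans (le_max_left _ _)
  · rw [hoff z hz, norm_zero]
    exact le_max_right _ _

theorem iso_main (P : R2 n →L[ℝ] R2 n) (hP : ∀ u v, omega (P u) v + omega u (P v) = omega u v)
    (φ : SympCt n)
    (h1 : ∀ z u, ∀ μ : ℝ, μ < -1 → P (der φ.map z u - u) = μ • u → u = 0)
    (h2 : ∀ z, ∃ x, ∀ u, P (der φ.map z u - u) = -u → ∃ c : ℝ, u = c • x) : Iso 1 φ := by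
  obtain ⟨K, hK, hoff⟩ := φ.compactSupport
  obtain ⟨Q, hQ⟩ : ∃ Q : Set (R2 n), Q = Prod.fst '' (KV P φ K ∩ {p | 0 ≤ dd P φ p.1 p.2}) :=
    ⟨_, rfl⟩
  obtain ⟨N, hN⟩ : ∃ N : Set (R2 n), N = Prod.fst '' (KV P φ K ∩ {p | dd P φ p.1 p.2 ≤ 0}) :=
    ⟨_, rfl⟩
  have hQc : IsCompact Q := by
    rw [hQ]
    exact ((KV_compact P φ hK).inter_right (isClosed_le continuous_const (dd_cont P φ))).image
      continuous_fst
  have hNc : IsCompact N := by
    rw [hN]
    exact ((KV_compact P φ hK).inter_right (isClosed_le (dd_cont P φ) continuous_const)).image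
      continuous_fst
  have hQN : Disjoint Q N := by
    rw [Set.disjoint_left, hQ, hN]
    rintro _ ⟨⟨z, u⟩, ⟨⟨-, hu1, hu⟩, hpos⟩, rfl⟩ ⟨⟨z', u'⟩, ⟨⟨-, hu1', hu'⟩, hneg⟩, hzz⟩
    have hzz : z' = z := hzz
    subst hzz
    have hpos : 0 ≤ dd P φ z' u := hpos
    have hneg : dd P φ z' u' ≤ 0 := hneg
    obtain ⟨x, hx⟩ := h2 z'
    have e1 := MX_same (TT P (fderiv ℝ φ.map z')) (SS P (fderiv ℝ φ.map z')) x hx u u'
      hu hu1 hu' hu1'
    have e2 : dd P φ z' u' = dd P φ z' u := by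
      rw [dd, dd, dt_def, dt_def, e1]
    rw [e2] at hneg
    exact dd_ne P hP φ z' u x hx hu hu1 (le_antisymm hneg hpos)
  obtain ⟨h, K', hh, hK', hoff', hQ', hN'⟩ := exists_ham hQc hNc hQN
  have hXs := ham_smooth h hh
  have hXs' : Continuous (fderiv ℝ (ham h)) := hXs.continuous_fderiv (by simp)
  obtain ⟨C, hC⟩ := bounded_of_off (ham h) hXs.continuous hK' hoff'
  obtain ⟨L, hL⟩ := bounded_of_off (fderiv ℝ (ham h)) hXs' hK' (fun z hz => by
    have h5 : ham h =ᶠ[𝓝 z] fun _ => 0 := by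
      filter_upwards [hK'.isClosed.isOpen_compl.mem_nhds hz] with x hx
      exact hoff' x hx
    rw [h5.fderiv_eq, fderiv_const_apply])
  have hL0 : 0 ≤ L := (norm_nonneg _).trans (hL 0)
  obtain ⟨c0, hc0, hsmall⟩ := exists_small P φ (fun z u μ hμ hu => h1 z u μ hμ hu) (ham h) hXs'
    hC hL (fun z u hu hu1 => by
      obtain ⟨x, hx⟩ := h2 z
      have hdd : dt (TT P (fderiv ℝ φ.map z)) (SS P (fderiv ℝ φ.map z)) 1 u = dd P φ z u := rfl
      rw [hdd]
      rcases lt_or_gt_of_ne (dd_ne P hP φ z u x hx hu hu1) with hlt | hgt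
      · have hz : z ∈ N := by
          rw [hN]
          exact ⟨(z, u), ⟨KV_mem P φ hK hoff z u hu hu1, hlt.le⟩, rfl⟩
        refine ⟨-1, by linarith, ?_⟩
        filter_upwards [hN' z hz] with m hm v
        rw [hm]; rfl
      · have hz : z ∈ Q := by
          rw [hQ]
          exact ⟨(z, u), ⟨KV_mem P φ hK hoff z u hu hu1, hgt.le⟩, rfl⟩
        refine ⟨1, by linarith, ?_⟩
        filter_upwards [hQ' z hz] with m hm v
        rw [hm]; rfl)
  obtain ⟨c, hc⟩ : ∃ c, c = min c0 (1 / (2 * (L + 1))) := ⟨_, rfl⟩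
  have hcpos : 0 < c := by rw [hc]; positivity
  have hc1 : c ≤ c0 := by rw [hc]; exact min_le_left _ _
  have hcL : c * L < 1 := by
    have e1 : c ≤ 1 / (2 * (L + 1)) := by rw [hc]; exact min_le_right _ _
    have e2 : c * (2 * (L + 1)) ≤ 1 := by
      rwa [le_div_iff₀ (by positivity)] at e1
    nlinarith
  obtain ⟨θ, hθ, hθm⟩ := exists_theta h hh hK' hoff' hL c hcpos hcL
  have hφθ : Iso 1 (φ * θ) := by
    refine iso_of_good (P : R2 n →ₗ[ℝ] R2 n) hP _ fun z u μ hμ hu => ?_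
    obtain ⟨m, v, hv1, hv2, hv3⟩ := hθm z u
    have e : fderiv ℝ (φ * θ).map z = (fderiv ℝ φ.map (θ.map z)).comp (fderiv ℝ θ.map z) :=
      fderiv_comp z ((φ.smooth.differentiable (by simp)) _)
        ((θ.smooth.differentiable (by simp)) _)
    have hu' : P (fderiv ℝ (φ * θ).map z u - u) = μ • u := hu
    rw [e, ContinuousLinearMap.comp_apply, hv2, hv3, hv1] at hu'
    by_contra hne
    have hv0 : v ≠ 0 := by
      rintro rfl
      apply hne
      rw [hv1, map_zero, smul_zero, sub_zero]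
    have hr := ip_pos v hv0
    obtain ⟨r, hr0⟩ : ∃ r, r = (Real.sqrt (ip v v))⁻¹ := ⟨_, rfl⟩
    have hrr : r * (r * ip v v) = 1 := by
      have h3 : Real.sqrt (ip v v) ≠ 0 := (Real.sqrt_pos.2 hr).ne'
      have h4 : Real.sqrt (ip v v) * Real.sqrt (ip v v) = ip v v := Real.mul_self_sqrt hr.le
      rw [hr0]
      nth_rewrite 3 [← h4]
      field_simp
    refine hsmall c hcpos hc1 m (r • v) (-μ) (by linarith) ?_ ?_
    · rw [ip_smul, map_smul, smul_eq_mul, hrr]
    · rw [TT_apply, SS_apply, map_smul, map_smul, map_smul]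
      have e3 : P (fderiv ℝ φ.map (m + c • ham h m) (v + c • fderiv ℝ (ham h) m v) -
          (v - c • fderiv ℝ (ham h) m v)) =
          P (fderiv ℝ φ.map (m + c • ham h m) v) + c • P (fderiv ℝ φ.map (m + c • ham h m)
            (fderiv ℝ (ham h) m v)) - P v + c • P (fderiv ℝ (ham h) m v) := by
        simp only [map_add, map_sub, map_smul]
        module
      rw [e3] at hu'
      rw [← sub_eq_zero] at hu'
      simp only [map_add, map_sub, map_smul]
      have e4 : (0 : R2 n) = r • 0 := (smul_zero r).symm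
      rw [e4, ← hu']
      module
  have h3 : φ = (φ * θ) * θ⁻¹ := by rw [mul_inv_cancel_right]
  rw [h3]
  exact (isoSubgroup n).mul_mem (show φ * θ ∈ isoSubgroup n from hφθ)
    ((isoSubgroup n).inv_mem (show θ ∈ isoSubgroup n from hθ))

/-- the criterion for two maps -/
theorem iso_pair (P : R2 n →L[ℝ] R2 n) (hP : ∀ u v, omega (P u) v + omega u (P v) = omega u v)
    (φ ψ : SympCt n)
    (h1 : ∀ z u, ∀ μ : ℝ, μ < -1 → P (der φ.map z u - der ψ.map z u) = μ • der ψ.map z u → u = 0)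
    (h2 : ∀ z, ∃ x, ∀ u, P (der φ.map z u - der ψ.map z u) = -der ψ.map z u →
      ∃ c : ℝ, u = c • x) : Iso ψ φ := by
  have hd : ∀ z u, der (φ * ψ⁻¹).map z u = der φ.map (ψ.map.symm z)
      (fderiv ℝ ψ.map.symm z u) := by
    intro z u
    have e : fderiv ℝ (φ * ψ⁻¹).map z = (fderiv ℝ φ.map (ψ.map.symm z)).comp
        (fderiv ℝ ψ.map.symm z) :=
      fderiv_comp z ((φ.smooth.differentiable (by simp)) _)
        ((ψ.smooth_symm.differentiable (by simp)) _)
    change fderiv ℝ (φ * ψ⁻¹).map z u = _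
    rw [e]; rfl
  have hψ : ∀ z u, der ψ.map (ψ.map.symm z) (fderiv ℝ ψ.map.symm z u) = u :=
    fun z u => fderiv_apply_symm ψ z u
  have h : Iso 1 (φ * ψ⁻¹) := by
    refine iso_main P hP _ (fun z u μ hμ hu => ?_) (fun z => ?_)
    · rw [hd] at hu
      have h3 := h1 (ψ.map.symm z) (fderiv ℝ ψ.map.symm z u) μ hμ (by rw [hψ]; exact hu)
      have h4 := hψ z u
      rw [h3] at h4
      rw [← h4]
      exact map_zero (fderiv ℝ ψ.map (ψ.map.symm z))
    · obtain ⟨x, hx⟩ := h2 (ψ.map.symm z)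
      refine ⟨der ψ.map (ψ.map.symm z) x, fun u hu => ?_⟩
      rw [hd] at hu
      obtain ⟨c, hc⟩ := hx (fderiv ℝ ψ.map.symm z u) (by rw [hψ]; exact hu)
      refine ⟨c, ?_⟩
      have h4 := hψ z u
      rw [hc] at h4
      rw [← h4]
      exact map_smul (fderiv ℝ ψ.map (ψ.map.symm z)) c x
  have h5 := h.mul (Iso.refl ψ)
  rwa [one_mul, inv_mul_cancel_right] at h5

end Pool.Agent.Q131.SE
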