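import Mathlib

/-!
# Determinants near a singular map with one-dimensional kernel
-/

set_option autoImplicit false

open Set Filter Topology

noncomputable section

namespace Pool.Agent.Q131.SE

variable {E : Type*} [NormedAddCommGroup E] [NormedSpace ℝ E] [FiniteDimensional ℝ E]

/-- the map which is `D` on `u` and `B` on the kernel of `l`, where `l u = 1` -/
def mix (B D : E →L[ℝ] E) (l : E →L[ℝ] ℝ) (u : E) : E →L[ℝ] E := B + l.smulRight (D u - B u)

omit [FiniteDimensional ℝ E] in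
theorem mix_apply (B D : E →L[ℝ] E) (l : E →L[ℝ] ℝ) (u x : E) :
    mix B D l u x = B x + l x • (D u - B u) := rfl

theorem det_factor (B D : E →L[ℝ] E) (l : E →L[ℝ] ℝ) (u : E) (hu : l u = 1) (τ : ℝ)
    (h : B u = -(τ • D u)) : B.det = -τ * (mix B D l u).det := by
  have h1 : (B : E →ₗ[ℝ] E) = (mix B D l u : E →ₗ[ℝ] E).comp
      (LinearMap.transvection (l : E →ₗ[ℝ] ℝ) ((-(1 + τ)) • u)) := by
    ext x
    rw [LinearMap.comp_apply, LinearMap.transvection.apply]
    simp only [ContinuousLinearMap.coe_coe, mix_apply, map_add, map_smul, hu, h, smul_sub,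
      smul_neg, smul_smul]
    module
  have h2 : LinearMap.det (LinearMap.transvection (l : E →ₗ[ℝ] ℝ) ((-(1 + τ)) • u)) = -τ := by
    rw [LinearMap.transvection.det]
    simp only [ContinuousLinearMap.coe_coe, map_smul, hu, smul_eq_mul]
    ring
  change LinearMap.det (B : E →ₗ[ℝ] E) = -τ * LinearMap.det (mix B D l u : E →ₗ[ℝ] E)
  rw [h1, LinearMap.det_comp, h2]
  ring

theorem det_ne_zero (B : E →L[ℝ] E) (h : ∀ u, B u = 0 → u = 0) : B.det ≠ 0 := by
  intro h0
  have h1 : LinearMap.det (B : E →ₗ[ℝ] E) = 0 := h0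
  have h2 := LinearMap.bot_lt_ker_of_det_eq_zero h1
  have h3 : LinearMap.ker (B : E →ₗ[ℝ] E) = ⊥ := by
    rw [LinearMap.ker_eq_bot']
    exact h
  rw [h3] at h2
  exact lt_irrefl _ h2

theorem det_nonneg (A : E →L[ℝ] E) (h : ∀ u, ∀ μ : ℝ, μ < -1 → A u = μ • u → u = 0) {α : ℝ}
    (hα : 1 ≤ α) : 0 ≤ (A + α • ContinuousLinearMap.id ℝ E).det := by
  obtain ⟨g, hg⟩ : ∃ g : ℝ → ℝ, g = fun t => (ContinuousLinearMap.id ℝ E + t • A).det := ⟨_, rfl⟩
  have hgc : Continuous g := by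
    rw [hg]
    exact ContinuousLinearMap.continuous_det.comp
      (continuous_const.add (continuous_id.smul continuous_const))
  have h0 : g 0 = 1 := by
    rw [hg]
    change LinearMap.det ((ContinuousLinearMap.id ℝ E + (0 : ℝ) • A : E →L[ℝ] E) : E →ₗ[ℝ] E) = 1
    rw [zero_smul, add_zero]
    exact LinearMap.det_id
  have hne : ∀ t, 0 < t → t < 1 → g t ≠ 0 := by
    intro t ht ht1
    rw [hg]
    refine det_ne_zero _ fun u hu => ?_
    have h1 : u + t • A u = 0 := hu
    refine h u (-t⁻¹) ?_ ?_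
    · have := (one_lt_inv₀ ht).2 ht1
      linarith
    · have h2 : t • A u = -u := eq_neg_of_add_eq_zero_right h1
      have h3 : t⁻¹ • t • A u = t⁻¹ • (-u) := by rw [h2]
      rw [smul_smul, inv_mul_cancel₀ ht.ne', one_smul] at h3
      rw [h3, smul_neg, neg_smul]
  have hpos : ∀ t, 0 ≤ t → t ≤ 1 → 0 ≤ g t := by
    intro t ht ht1
    by_contra hneg
    rw [not_le] at hneg
    obtain ⟨s, ⟨hs0, hs1⟩, hs⟩ := intermediate_value_Icc' ht hgc.continuousOn
      (show (0 : ℝ) ∈ Icc (g t) (g 0) from ⟨hneg.le, by rw [h0]; norm_num⟩)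
    have e1 : s ≠ 0 := by
      rintro rfl
      rw [h0] at hs
      norm_num at hs
    have e2 : s ≠ t := by
      rintro rfl
      rw [hs] at hneg
      exact lt_irrefl _ hneg
    exact hne s (lt_of_le_of_ne hs0 (Ne.symm e1)) (lt_of_lt_of_le (lt_of_le_of_ne hs1 e2) ht1) hs
  have hα0 : 0 < α := by linarith
  have h1 : ((A + α • ContinuousLinearMap.id ℝ E : E →L[ℝ] E) : E →ₗ[ℝ] E) =
      α • ((ContinuousLinearMap.id ℝ E + α⁻¹ • A : E →L[ℝ] E) : E →ₗ[ℝ] E) := by
    ext x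
    change A x + α • x = α • (x + α⁻¹ • A x)
    rw [smul_add, smul_smul, mul_inv_cancel₀ hα0.ne', one_smul, add_comm]
  change 0 ≤ LinearMap.det ((A + α • ContinuousLinearMap.id ℝ E : E →L[ℝ] E) : E →ₗ[ℝ] E)
  rw [h1, LinearMap.det_smul]
  have h2 := hpos α⁻¹ (by positivity) (inv_le_one_of_one_le₀ hα)
  rw [hg] at h2
  exact mul_nonneg (by positivity) h2

end Pool.Agent.Q131.SE
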