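import Pool.Agent.Q131.SE.Cut

/-!
# Compactly supported symplectomorphisms whose differential has the eigenvalue `-1` with an at most
one-dimensional eigenspace and no real eigenvalue smaller than `-1`
-/

set_option autoImplicit false

open Set Filter Topology
open scoped ContDiff

noncomputable section

namespace Pool.Agent.Q131.SE

open Pool.Agent.Q130.SC.Sym

variable {n : ℕ}

/-- `T + β` on the complement of `u`, `(S - β) J` on `u` -/
def MX (T S : R2 n →L[ℝ] R2 n) (β : ℝ) (u : R2 n) : R2 n →L[ℝ] R2 n :=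
  mix (T + β • ContinuousLinearMap.id ℝ (R2 n))
    ((S - β • ContinuousLinearMap.id ℝ (R2 n)).comp (J n)) (ip u) u

theorem MX_apply (T S : R2 n →L[ℝ] R2 n) (β : ℝ) (u x : R2 n) : MX T S β u x =
    T x + β • x + ip u x • ((S (J n u) - β • J n u) - (T u + β • u)) := rfl

theorem MX_continuous : Continuous (fun p : (R2 n →L[ℝ] R2 n) × (R2 n →L[ℝ] R2 n) × ℝ × R2 n =>
    (MX p.1 p.2.1 p.2.2.1 p.2.2.2).det) := by
  refine ContinuousLinearMap.continuous_det.comp ?_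
  have hT : Continuous (fun p : (R2 n →L[ℝ] R2 n) × (R2 n →L[ℝ] R2 n) × ℝ × R2 n => p.1) :=
    continuous_fst
  have hS : Continuous (fun p : (R2 n →L[ℝ] R2 n) × (R2 n →L[ℝ] R2 n) × ℝ × R2 n => p.2.1) :=
    continuous_fst.comp continuous_snd
  have hα : Continuous (fun p : (R2 n →L[ℝ] R2 n) × (R2 n →L[ℝ] R2 n) × ℝ × R2 n => p.2.2.1) :=
    continuous_fst.comp (continuous_snd.comp continuous_snd)
  have hu : Continuous (fun p : (R2 n →L[ℝ] R2 n) × (R2 n →L[ℝ] R2 n) × ℝ × R2 n => p.2.2.2) :=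
    continuous_snd.comp (continuous_snd.comp continuous_snd)
  have hJu : Continuous (fun p : (R2 n →L[ℝ] R2 n) × (R2 n →L[ℝ] R2 n) × ℝ × R2 n =>
      J n p.2.2.2) := (J n).continuous.comp hu
  have h1 : Continuous (fun p : (R2 n →L[ℝ] R2 n) × (R2 n →L[ℝ] R2 n) × ℝ × R2 n =>
      p.1 + p.2.2.1 • ContinuousLinearMap.id ℝ (R2 n)) := hT.add (hα.smul continuous_const)
  have h2 : Continuous (fun p : (R2 n →L[ℝ] R2 n) × (R2 n →L[ℝ] R2 n) × ℝ × R2 n =>
      (p.2.1 (J n p.2.2.2) - p.2.2.1 • J n p.2.2.2) - (p.1 p.2.2.2 + p.2.2.1 • p.2.2.2)) :=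
    ((hS.clm_apply hJu).sub (hα.smul hJu)).sub ((hT.clm_apply hu).add (hα.smul hu))
  have h3 : Continuous (fun p : (R2 n →L[ℝ] R2 n) × (R2 n →L[ℝ] R2 n) × ℝ × R2 n =>
      ip p.2.2.2) := ip_continuous.comp hu
  have h4 : Continuous (fun p : (R2 n →L[ℝ] R2 n) × (R2 n →L[ℝ] R2 n) × ℝ × R2 n =>
      ContinuousLinearMap.smulRightL ℝ (R2 n) (R2 n) (ip p.2.2.2)
        ((p.2.1 (J n p.2.2.2) - p.2.2.1 • J n p.2.2.2) - (p.1 p.2.2.2 + p.2.2.1 • p.2.2.2))) :=
    ((ContinuousLinearMap.smulRightL ℝ (R2 n) (R2 n)).continuous.comp h3).clm_apply h2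
  exact h1.add h4

/-- `P (A - 1)` -/
def TT (P : R2 n →L[ℝ] R2 n) (A : R2 n →L[ℝ] R2 n) : R2 n →L[ℝ] R2 n :=
  P.comp (A - ContinuousLinearMap.id ℝ (R2 n))

/-- `P (A + 1)` -/
def SS (P : R2 n →L[ℝ] R2 n) (A : R2 n →L[ℝ] R2 n) : R2 n →L[ℝ] R2 n :=
  P.comp (A + ContinuousLinearMap.id ℝ (R2 n))

theorem TT_apply (P A : R2 n →L[ℝ] R2 n) (u : R2 n) : TT P A u = P (A u - u) := rfl

theorem SS_apply (P A : R2 n →L[ℝ] R2 n) (u : R2 n) : SS P A u = P (A u + u) := rfl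

theorem TT_continuous (P : R2 n →L[ℝ] R2 n) : Continuous (TT P) :=
  continuous_const.clm_comp (continuous_id.sub continuous_const)

theorem SS_continuous (P : R2 n →L[ℝ] R2 n) : Continuous (SS P) :=
  continuous_const.clm_comp (continuous_id.add continuous_const)

/-- invertibility at a kernel vector -/
theorem MX_inj (P : R2 n →L[ℝ] R2 n) (hP : ∀ u v, omega (P u) v + omega u (P v) = omega u v)
    (A : R2 n →L[ℝ] R2 n) (hA : ∀ u v, omega (A u) (A v) = omega u v) (u : R2 n)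
    (hu : TT P A u = -u) (hu1 : ip u u = 1) (x : R2 n)
    (hx : ∀ v, TT P A v = -v → ∃ c : ℝ, v = c • x) (y : R2 n)
    (hy : MX (TT P A) (SS P A) 1 u y = 0) : y = 0 := by
  rw [MX_apply, hu, one_smul, one_smul, one_smul, neg_add_cancel, sub_zero] at hy
  have h1 : ∀ v, omega (A u - u) (P v) = omega (A u) v := by
    intro v
    have e1 := hP (A u - u) v
    have e2 : P (A u - u) = -u := hu
    rw [e2, om_neg_left, sub_eq_add_neg, om_add_left (A u) (-u) v, om_neg_left,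
      ← sub_eq_add_neg] at e1
    linarith
  have h2 : omega (A u - u) (TT P A y + y + ip u y • (SS P A (J n u) - J n u)) = 0 := by
    rw [hy, om_zero_right]
  have e3 : ∀ v, omega (A u - u) v = omega (A u) v - omega u v := by
    intro v
    rw [sub_eq_add_neg, om_add_left, om_neg_left]
    ring
  rw [om_add_right, om_add_right, om_smul_right, sub_eq_add_neg (SS P A (J n u)), om_add_right,
    om_neg_right, TT_apply, SS_apply, h1, h1, e3, e3, sub_eq_add_neg (A y), om_add_right,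
    om_neg_right, om_add_right, hA, hA, om_J_right u u, hu1] at h2
  have h3 : ip u y = 0 := by linarith
  rw [h3, zero_smul, add_zero] at hy
  obtain ⟨c, hc⟩ := hx y (eq_neg_of_add_eq_zero_left hy)
  obtain ⟨d, hd⟩ := hx u hu
  have hd0 : d ≠ 0 := by
    rintro rfl
    rw [hd, zero_smul, map_zero] at hu1
    norm_num at hu1
  have h4 : y = (c / d) • u := by
    rw [hd, smul_smul, div_mul_cancel₀ _ hd0, hc]
  rw [h4, map_smul, hu1, smul_eq_mul, mul_one] at h3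
  rw [h4, h3, zero_smul]

theorem MX_sq (T S : R2 n →L[ℝ] R2 n) (β : ℝ) (u : R2 n) (c : ℝ) (hc : c ^ 2 = 1) :
    MX T S β (c • u) = MX T S β u := by
  refine ContinuousLinearMap.ext fun y => ?_
  rw [MX_apply, MX_apply]
  simp only [ip_smul, map_smul]
  have h2 : ((c * ip u y) • ((c • S (J n u) - β • c • J n u) - (c • T u + β • c • u)) : R2 n) =
      (c ^ 2) • (ip u y • ((S (J n u) - β • J n u) - (T u + β • u))) := by
    module
  rw [h2, hc, one_smul]

theorem MX_same (T S : R2 n →L[ℝ] R2 n) (x : R2 n)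
    (hx : ∀ v, T v = -v → ∃ c : ℝ, v = c • x) (u u' : R2 n)
    (hu : T u = -u) (hu1 : ip u u = 1) (hu' : T u' = -u') (hu1' : ip u' u' = 1) :
    MX T S 1 u' = MX T S 1 u := by
  obtain ⟨c, hc⟩ := hx u' hu'
  obtain ⟨d, hd⟩ := hx u hu
  have hd0 : d ≠ 0 := by
    rintro rfl
    rw [hd, zero_smul, map_zero] at hu1
    norm_num at hu1
  have h4 : u' = (c / d) • u := by
    rw [hd, smul_smul, div_mul_cancel₀ _ hd0, hc]
  rw [h4]
  refine MX_sq T S 1 u _ ?_
  rw [h4, map_smul, ip_smul, hu1, smul_eq_mul, mul_one] at hu1'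
  rw [sq, hu1']

/-- the determinant of `MX T S β u` -/
def dt (T S : R2 n →L[ℝ] R2 n) (β : ℝ) (u : R2 n) : ℝ := (MX T S β u).det

theorem dt_def (T S : R2 n →L[ℝ] R2 n) (β : ℝ) (u : R2 n) : dt T S β u = (MX T S β u).det := rfl

theorem dt_continuous : Continuous (fun p : (R2 n →L[ℝ] R2 n) × (R2 n →L[ℝ] R2 n) × ℝ × R2 n =>
    dt p.1 p.2.1 p.2.2.1 p.2.2.2) := MX_continuous

attribute [irreducible] dt

theorem dt_tendsto {f g : ℕ → R2 n →L[ℝ] R2 n} {F G : R2 n →L[ℝ] R2 n} {a : ℕ → ℝ} {α : ℝ}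
    {v : ℕ → R2 n} {V : R2 n} (hf : Tendsto f atTop (𝓝 F)) (hg : Tendsto g atTop (𝓝 G))
    (ha : Tendsto a atTop (𝓝 α)) (hv : Tendsto v atTop (𝓝 V)) :
    Tendsto (fun k => dt (f k) (g k) (a k) (v k)) atTop (𝓝 (dt F G α V)) := by
  have h1 : Tendsto (fun k => (f k, g k, a k, v k)) atTop (𝓝 (F, G, α, V)) :=
    hf.prodMk_nhds (hg.prodMk_nhds (ha.prodMk_nhds hv))
  have h2 := (dt_continuous (n := n)).tendsto (F, G, α, V)
  exact h2.comp h1

/-- the step with a negative determinant -/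
theorem det_neg_step (T S : R2 n →L[ℝ] R2 n) (β c σ : ℝ) (hc : 0 < c) (u : R2 n)
    (hu1 : ip u u = 1) (hσ : 0 < σ * dt T S β u)
    (heq : T u + β • u + c • (S (σ • J n u) - β • σ • J n u) = 0) :
    (T + β • ContinuousLinearMap.id ℝ (R2 n)).det < 0 := by
  have h1 := det_factor (T + β • ContinuousLinearMap.id ℝ (R2 n))
    ((S - β • ContinuousLinearMap.id ℝ (R2 n)).comp (J n)) (ip u) u hu1 (c * σ) (by
      change T u + β • u = -((c * σ) • (S (J n u) - β • J n u))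
      rw [map_smul] at heq
      rw [eq_neg_iff_add_eq_zero, ← heq]
      module)
  have h2 : (mix (T + β • ContinuousLinearMap.id ℝ (R2 n))
    ((S - β • ContinuousLinearMap.id ℝ (R2 n)).comp (J n)) (ip u) u).det = (MX T S β u).det := rfl
  rw [h1, h2, ← dt_def]
  nlinarith

theorem tendsto_app {f : ℕ → R2 n →L[ℝ] R2 n} {F : R2 n →L[ℝ] R2 n} {v : ℕ → R2 n} {V : R2 n}
    (hf : Tendsto f atTop (𝓝 F)) (hv : Tendsto v atTop (𝓝 V)) :
    Tendsto (fun k => f k (v k)) atTop (𝓝 (F V)) :=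
  ((continuous_fst.clm_apply continuous_snd : Continuous fun p : (R2 n →L[ℝ] R2 n) × R2 n =>
    p.1 p.2).tendsto (F, V)).comp (hf.prodMk_nhds hv)

theorem exists_small (P : R2 n →L[ℝ] R2 n) (φ : SympCt n)
    (h1 : ∀ z u, ∀ μ : ℝ, μ < -1 → TT P (fderiv ℝ φ.map z) u = μ • u → u = 0)
    (X : R2 n → R2 n) (hXs : Continuous (fderiv ℝ X)) {C L : ℝ}
    (hC : ∀ m, ‖X m‖ ≤ C) (hL : ∀ m, ‖fderiv ℝ X m‖ ≤ L)
    (hσ : ∀ z u, TT P (fderiv ℝ φ.map z) u = -u → ip u u = 1 → ∃ σ : ℝ,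
      0 < σ * dt (TT P (fderiv ℝ φ.map z)) (SS P (fderiv ℝ φ.map z)) 1 u ∧
        ∀ᶠ m in 𝓝 z, ∀ v, fderiv ℝ X m v = σ • J n v) :
    ∃ c0 : ℝ, 0 < c0 ∧ ∀ c : ℝ, 0 < c → c ≤ c0 → ∀ m u, ∀ β : ℝ, 1 ≤ β → ip u u = 1 →
      TT P (fderiv ℝ φ.map (m + c • X m)) u + β • u +
        c • (SS P (fderiv ℝ φ.map (m + c • X m)) (fderiv ℝ X m u) - β • fderiv ℝ X m u) ≠ 0 := by
  obtain ⟨K, hK, hoff⟩ := φ.compactSupport
  obtain ⟨M0, hM0, hMb0⟩ := fderiv_bounded φ
  obtain ⟨M, hM⟩ : ∃ M, M = ‖P‖ * (M0 + 1) + 1 := ⟨_, rfl⟩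
  have hMpos : 0 < M := by rw [hM]; positivity
  have hid : ‖ContinuousLinearMap.id ℝ (R2 n)‖ ≤ 1 := ContinuousLinearMap.norm_id_le
  have hTb : ∀ z, ‖TT P (fderiv ℝ φ.map z)‖ ≤ M := by
    intro z
    have e1 := ContinuousLinearMap.opNorm_comp_le P (fderiv ℝ φ.map z - ContinuousLinearMap.id ℝ (R2 n))
    have e2 := norm_sub_le (fderiv ℝ φ.map z) (ContinuousLinearMap.id ℝ (R2 n))
    have e3 : ‖P‖ * ‖fderiv ℝ φ.map z - ContinuousLinearMap.id ℝ (R2 n)‖ ≤ ‖P‖ * (M0 + 1) :=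
      mul_le_mul_of_nonneg_left (by linarith [hMb0 z]) (norm_nonneg _)
    rw [hM]
    exact (e1.trans e3).trans (by linarith)
  have hSb : ∀ z, ‖SS P (fderiv ℝ φ.map z)‖ ≤ M := by
    intro z
    have e1 := ContinuousLinearMap.opNorm_comp_le P (fderiv ℝ φ.map z + ContinuousLinearMap.id ℝ (R2 n))
    have e2 := norm_add_le (fderiv ℝ φ.map z) (ContinuousLinearMap.id ℝ (R2 n))
    have e3 : ‖P‖ * ‖fderiv ℝ φ.map z + ContinuousLinearMap.id ℝ (R2 n)‖ ≤ ‖P‖ * (M0 + 1) :=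
      mul_le_mul_of_nonneg_left (by linarith [hMb0 z]) (norm_nonneg _)
    rw [hM]
    exact (e1.trans e3).trans (by linarith)
  have hL0 : 0 ≤ L := (norm_nonneg _).trans (hL 0)
  have hC0 : 0 ≤ C := (norm_nonneg _).trans (hC 0)
  have hAc : Continuous (fderiv ℝ φ.map) := φ.smooth.continuous_fderiv (by simp)
  by_contra hcon
  push Not at hcon
  have hpos : ∀ k : ℕ, 0 < min (1 / ((k : ℝ) + 1)) (1 / (2 * (L + 1) * (2 * ‖P‖ + 1))) :=
    fun k => by positivity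
  choose c hc0 hc1 m u α hα hu heq using fun k : ℕ => hcon _ (hpos k)
  have hcL' : ∀ k, c k * L * (2 * ‖P‖ + 1) ≤ 1 / 2 := by
    intro k
    have e1 : c k ≤ 1 / (2 * (L + 1) * (2 * ‖P‖ + 1)) := (hc1 k).trans (min_le_right _ _)
    have e2 : c k * (2 * (L + 1) * (2 * ‖P‖ + 1)) ≤ 1 := by
      rwa [le_div_iff₀ (by positivity)] at e1
    have e3 : 0 ≤ c k * (2 * ‖P‖ + 1) := mul_nonneg (hc0 k).le (by positivity)
    nlinarith [hc0 k]
  have hcL : ∀ k, c k * L ≤ 1 / 2 := by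
    intro k
    have e1 := hcL' k
    have e2 : 0 ≤ c k * L * (2 * ‖P‖) :=
      mul_nonneg (mul_nonneg (hc0 k).le hL0) (by positivity)
    linarith
  have hclim : Tendsto c atTop (𝓝 0) := by
    refine squeeze_zero (fun k => (hc0 k).le) (fun k => (hc1 k).trans (min_le_left _ _)) ?_
    exact tendsto_one_div_add_atTop_nhds_zero_nat
  have hun : ∀ k, 0 < ‖u k‖ := by
    intro k
    refine norm_pos_iff.2 ?_
    intro h0
    have := hu k
    rw [h0, map_zero] at this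
    norm_num at this
  obtain ⟨d, hd⟩ : ∃ d : ℕ → R2 n, d = fun k => fderiv ℝ X (m k) (u k) := ⟨_, rfl⟩
  have hdk : ∀ k, fderiv ℝ X (m k) (u k) = d k := fun k => by rw [hd]
  have hDL : ∀ k, c k * ‖d k‖ ≤ (c k * L) * ‖u k‖ := by
    intro k
    have e1 := (fderiv ℝ X (m k)).le_of_opNorm_le (hL (m k)) (u k)
    rw [hdk] at e1
    calc c k * ‖d k‖ ≤ c k * (L * ‖u k‖) :=
          mul_le_mul_of_nonneg_left e1 (hc0 k).le
      _ = (c k * L) * ‖u k‖ := by ring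
  have hDb : ∀ k, c k * ‖d k‖ ≤ 1 / 2 * ‖u k‖ := fun k =>
    (hDL k).trans (mul_le_mul_of_nonneg_right (hcL k) (norm_nonneg _))
  obtain ⟨w, hw⟩ : ∃ w : ℕ → R2 n, w = fun k => m k + c k • X (m k) := ⟨_, rfl⟩
  have hwk : ∀ k, w k = m k + c k • X (m k) := fun k => by rw [hw]
  have heq' : ∀ k, TT P (fderiv ℝ φ.map (w k)) (u k) + α k • u k +
      c k • (SS P (fderiv ℝ φ.map (w k)) (d k) - α k • d k) = 0 := fun k => by
    rw [hwk, ← hdk]; exact heq k
  have hαb : ∀ k, α k ≤ 4 * M := by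
    intro k
    have e1 : α k • (u k - c k • d k) =
        -(TT P (fderiv ℝ φ.map (w k)) (u k) + c k • SS P (fderiv ℝ φ.map (w k)) (d k)) := by
      rw [eq_neg_iff_add_eq_zero, ← heq' k]
      module
    have e2 : α k * ‖u k - c k • d k‖ =
        ‖TT P (fderiv ℝ φ.map (w k)) (u k) + c k • SS P (fderiv ℝ φ.map (w k)) (d k)‖ := by
      rw [← norm_neg (TT P (fderiv ℝ φ.map (w k)) (u k) + _), ← e1, norm_smul, Real.norm_eq_abs,
        abs_of_pos (by linarith [hα k])]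
    have e3 := (TT P (fderiv ℝ φ.map (w k))).le_of_opNorm_le (hTb (w k)) (u k)
    have e4 := (SS P (fderiv ℝ φ.map (w k))).le_of_opNorm_le (hSb (w k)) (d k)
    have e5 := norm_add_le (TT P (fderiv ℝ φ.map (w k)) (u k))
      (c k • SS P (fderiv ℝ φ.map (w k)) (d k))
    rw [norm_smul, Real.norm_eq_abs, abs_of_pos (hc0 k)] at e5
    have e6 : c k * ‖SS P (fderiv ℝ φ.map (w k)) (d k)‖ ≤ M * (1 / 2 * ‖u k‖) := by
      calc _ ≤ c k * (M * ‖d k‖) := mul_le_mul_of_nonneg_left e4 (hc0 k).le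
        _ = M * (c k * ‖d k‖) := by ring
        _ ≤ _ := mul_le_mul_of_nonneg_left (hDb k) hMpos.le
    have e7 : 1 / 2 * ‖u k‖ ≤ ‖u k - c k • d k‖ := by
      have e8 := norm_sub_norm_le (u k) (c k • d k)
      rw [norm_smul, Real.norm_eq_abs, abs_of_pos (hc0 k)] at e8
      linarith [hDb k]
    have e9 : α k * (1 / 2 * ‖u k‖) ≤ α k * ‖u k - c k • d k‖ :=
      mul_le_mul_of_nonneg_left e7 (by linarith [hα k])
    by_contra hne
    rw [not_le] at hne
    have e10 : 4 * M * (1 / 2 * ‖u k‖) < α k * (1 / 2 * ‖u k‖) :=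
      mul_lt_mul_of_pos_right hne (mul_pos (by norm_num) (hun k))
    have e11 : 0 < M * ‖u k‖ := mul_pos hMpos (hun k)
    nlinarith
  have hwK : ∀ k, w k ∈ K := by
    intro k
    by_contra hne
    have hev : (φ.map : R2 n → R2 n) =ᶠ[𝓝 (w k)] id := by
      filter_upwards [hK.isClosed.isOpen_compl.mem_nhds hne] with x hx
      exact hoff x hx
    have e1 := heq' k
    rw [hev.fderiv_eq, fderiv_id, TT_apply, SS_apply] at e1
    have e0 : (ContinuousLinearMap.id ℝ (R2 n)) (u k) - u k = 0 := sub_self _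
    have e0' : (ContinuousLinearMap.id ℝ (R2 n)) (d k) + d k = (2 : ℝ) • d k := (two_smul ℝ _).symm
    rw [e0, e0', map_zero, zero_add, map_smul] at e1
    have e2 : α k • u k = c k • (α k • d k - (2 : ℝ) • P (d k)) := by
      rw [← sub_eq_zero, ← e1]
      module
    have e4 : ‖α k • u k‖ = ‖c k • (α k • d k - (2 : ℝ) • P (d k))‖ := by rw [e2]
    rw [norm_smul, norm_smul (c k), Real.norm_eq_abs, Real.norm_eq_abs,
      abs_of_pos (by linarith [hα k]), abs_of_pos (hc0 k)] at e4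
    have e5 := norm_sub_le (α k • d k) ((2 : ℝ) • P (d k))
    rw [norm_smul, norm_smul, Real.norm_eq_abs, Real.norm_eq_abs,
      abs_of_pos (by linarith [hα k]), abs_of_pos (by norm_num : (0 : ℝ) < 2)] at e5
    have e6 := P.le_opNorm (d k)
    have e7 : ‖α k • d k - (2 : ℝ) • P (d k)‖ ≤ α k * ((2 * ‖P‖ + 1) * ‖d k‖) := by
      have e8 : 2 * ‖P‖ * ‖d k‖ ≤ α k * (2 * ‖P‖ * ‖d k‖) :=
        le_mul_of_one_le_left (by positivity) (hα k)
      nlinarith
    have e9 : c k * ‖α k • d k - (2 : ℝ) • P (d k)‖ ≤ α k * (1 / 2 * ‖u k‖) := by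
      calc _ ≤ c k * (α k * ((2 * ‖P‖ + 1) * ‖d k‖)) :=
            mul_le_mul_of_nonneg_left e7 (hc0 k).le
        _ = (α k * (2 * ‖P‖ + 1)) * (c k * ‖d k‖) := by ring
        _ ≤ (α k * (2 * ‖P‖ + 1)) * ((c k * L) * ‖u k‖) :=
            mul_le_mul_of_nonneg_left (hDL k) (mul_nonneg (by linarith [hα k]) (by positivity))
        _ = α k * ((c k * L * (2 * ‖P‖ + 1)) * ‖u k‖) := by ring
        _ ≤ α k * (1 / 2 * ‖u k‖) := mul_le_mul_of_nonneg_left
            (mul_le_mul_of_nonneg_right (hcL' k) (norm_nonneg _)) (by linarith [hα k])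
    have e10 : 0 < α k * ‖u k‖ := mul_pos (by linarith [hα k]) (hun k)
    nlinarith
  have hS : IsCompact (K ×ˢ (Icc (1 : ℝ) (4 * M) ×ˢ {v : R2 n | ip v v = 1})) := by
    refine hK.prod (isCompact_Icc.prod ?_)
    refine (isCompact_closedBall (0 : R2 n) 1).of_isClosed_subset ?_ ?_
    · exact isClosed_eq (ip_continuous.clm_apply continuous_id) continuous_const
    · intro v hv
      have hv1 : ip v v = 1 := hv
      rw [mem_closedBall_zero_iff]
      have := norm_sq_le v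
      rw [hv1] at this
      nlinarith [norm_nonneg v]
  obtain ⟨⟨w0, α0, u0⟩, ⟨hw0, hα0, hu0⟩, ψ, hψ, hlim⟩ := hS.tendsto_subseq
    (x := fun k => (w k, α k, u k)) (fun k => ⟨hwK k, ⟨hα k, hαb k⟩, hu k⟩)
  have hu0 : ip u0 u0 = 1 := hu0
  have lw : Tendsto (fun k => w (ψ k)) atTop (𝓝 w0) := (continuous_fst.tendsto _).comp hlim
  have lα : Tendsto (fun k => α (ψ k)) atTop (𝓝 α0) :=
    ((continuous_fst.comp continuous_snd).tendsto _).comp hlim
  have lu : Tendsto (fun k => u (ψ k)) atTop (𝓝 u0) :=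
    ((continuous_snd.comp continuous_snd).tendsto _).comp hlim
  have lc : Tendsto (fun k => c (ψ k)) atTop (𝓝 0) := hclim.comp hψ.tendsto_atTop
  have lcX : Tendsto (fun k => c (ψ k) • X (m (ψ k))) atTop (𝓝 0) := by
    rw [tendsto_zero_iff_norm_tendsto_zero]
    refine squeeze_zero (fun k => norm_nonneg _) (g := fun k => c (ψ k) * C) (fun k => ?_) ?_
    · rw [norm_smul, Real.norm_eq_abs, abs_of_pos (hc0 _)]
      exact mul_le_mul_of_nonneg_left (hC _) (hc0 _).le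
    · have := lc.mul_const C
      rwa [zero_mul] at this
  have lm : Tendsto (fun k => m (ψ k)) atTop (𝓝 w0) := by
    have h2 := lw.sub lcX
    rw [sub_zero] at h2
    refine h2.congr fun k => ?_
    rw [hwk, add_sub_cancel_right]
  have lA : Tendsto (fun k => fderiv ℝ φ.map (w (ψ k))) atTop (𝓝 (fderiv ℝ φ.map w0)) :=
    (hAc.tendsto _).comp lw
  have lT : Tendsto (fun k => TT P (fderiv ℝ φ.map (w (ψ k)))) atTop
      (𝓝 (TT P (fderiv ℝ φ.map w0))) := ((TT_continuous P).tendsto _).comp lA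
  have lS : Tendsto (fun k => SS P (fderiv ℝ φ.map (w (ψ k)))) atTop
      (𝓝 (SS P (fderiv ℝ φ.map w0))) := ((SS_continuous P).tendsto _).comp lA
  have lD : Tendsto (fun k => fderiv ℝ X (m (ψ k))) atTop (𝓝 (fderiv ℝ X w0)) :=
    (hXs.tendsto _).comp lm
  have ld : Tendsto (fun k => d (ψ k)) atTop (𝓝 (fderiv ℝ X w0 u0)) := by
    refine (tendsto_app lD lu).congr fun k => ?_
    exact hdk (ψ k)
  have hlimeq : TT P (fderiv ℝ φ.map w0) u0 + α0 • u0 = 0 := by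
    have e1 := ((tendsto_app lT lu).add (lα.smul lu)).add
      (lc.smul ((tendsto_app lS ld).sub (lα.smul ld)))
    rw [zero_smul, add_zero] at e1
    refine tendsto_nhds_unique e1 ?_
    have e2 : (fun k => TT P (fderiv ℝ φ.map (w (ψ k))) (u (ψ k)) + α (ψ k) • u (ψ k) +
        c (ψ k) • (SS P (fderiv ℝ φ.map (w (ψ k))) (d (ψ k)) - α (ψ k) • d (ψ k))) =
        fun _ => 0 := funext fun k => heq' (ψ k)
    rw [e2]
    exact tendsto_const_nhds
  have hα01 : α0 = 1 := by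
    by_contra hne
    have e1 : 1 < α0 := lt_of_le_of_ne hα0.1 (Ne.symm hne)
    have e2 := h1 w0 u0 (-α0) (by linarith) (by
      rw [neg_smul]
      exact eq_neg_of_add_eq_zero_left hlimeq)
    rw [e2, map_zero] at hu0
    norm_num at hu0
  rw [hα01, one_smul] at hlimeq
  rw [hα01] at lα
  obtain ⟨σ, hσ1, hσ2⟩ := hσ w0 u0 (eq_neg_of_add_eq_zero_left hlimeq) hu0
  have hev1 : ∀ᶠ k in atTop, ∀ v, fderiv ℝ X (m (ψ k)) v = σ • J n v := lm.eventually hσ2
  have hev2 : ∀ᶠ k in atTop, 0 < σ * dt (TT P (fderiv ℝ φ.map (w (ψ k))))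
      (SS P (fderiv ℝ φ.map (w (ψ k)))) (α (ψ k)) (u (ψ k)) := by
    have e1 := dt_tendsto lT lS lα lu
    exact (e1.const_mul σ).eventually_const_lt hσ1
  obtain ⟨k, hk1, hk2⟩ := (hev1.and hev2).exists
  have e1 := heq' (ψ k)
  rw [← hdk, hk1 (u (ψ k))] at e1
  have e2 := det_neg_step (TT P (fderiv ℝ φ.map (w (ψ k)))) (SS P (fderiv ℝ φ.map (w (ψ k))))
    (α (ψ k)) (c (ψ k)) σ (hc0 _) (u (ψ k)) (hu _) hk2 e1
  have e3 := det_nonneg (TT P (fderiv ℝ φ.map (w (ψ k)))) (fun u μ hμ hu => h1 _ u μ hμ hu)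
    (hα (ψ k))
  linarith

end Pool.Agent.Q131.SE
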