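import Pool.Agent.Q131.SE.Lin
import Pool.Agent.Q130.SC.Grp

/-!
# The symplectic form, the complex structure and Hamiltonian vector fields on `ℝ^{2n}`
-/

set_option autoImplicit false

open Set Filter Topology
open scoped ContDiff

noncomputable section

namespace Pool.Agent.Q131.SE

open Pool.Agent.Q130.SC.Sym

variable {n : ℕ}

theorem om_add_left (u u' v : R2 n) : omega (u + u') v = omega u v + omega u' v :=
  Pool.Agent.Q130.SC.omega_add_left u u' v

theorem om_add_right (u v v' : R2 n) : omega u (v + v') = omega u v + omega u v' :=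
  Pool.Agent.Q130.SC.omega_add_right u v v'

theorem om_smul_left (c : ℝ) (u v : R2 n) : omega (c • u) v = c * omega u v :=
  Pool.Agent.Q130.SC.omega_smul_left c u v

theorem om_smul_right (c : ℝ) (u v : R2 n) : omega u (c • v) = c * omega u v :=
  Pool.Agent.Q130.SC.omega_smul_right c u v

theorem om_swap (u v : R2 n) : omega u v = -omega v u := by
  simp only [omega, ← Finset.sum_neg_distrib]
  refine Finset.sum_congr rfl fun i _ => ?_
  ring

theorem om_neg_left (u v : R2 n) : omega (-u) v = -omega u v := by
  rw [← neg_one_smul ℝ u, om_smul_left]; ring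

theorem om_neg_right (u v : R2 n) : omega u (-v) = -omega u v := by
  rw [← neg_one_smul ℝ v, om_smul_right]; ring

theorem om_zero_left (v : R2 n) : omega 0 v = 0 := by simp [omega]

theorem om_zero_right (v : R2 n) : omega v 0 = 0 := by simp [omega]

/-- the functional `omega u` as a continuous linear map, depending linearly on `u` -/
def flat (n : ℕ) : R2 n →L[ℝ] (R2 n →L[ℝ] ℝ) :=
  LinearMap.toContinuousLinearMap
    { toFun := fun u => LinearMap.toContinuousLinearMap
        { toFun := fun v => omega u v
          map_add' := fun v v' => om_add_right u v v'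
          map_smul' := fun c v => om_smul_right c u v }
      map_add' := fun u u' => by
        ext v
        · exact om_add_left u u' _
        · exact om_add_left u u' _
      map_smul' := fun c u => by
        ext v
        · exact om_smul_left c u _
        · exact om_smul_left c u _ }

theorem flat_apply (u v : R2 n) : flat n u v = omega u v := rfl

/-- the complex structure -/
def J (n : ℕ) : R2 n →L[ℝ] R2 n :=
  (ContinuousLinearMap.snd ℝ _ _).prod (-(ContinuousLinearMap.fst ℝ _ _))

theorem J_apply (u : R2 n) : J n u = (u.2, -u.1) := rfl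

theorem J_J (u : R2 n) : J n (J n u) = -u := by
  rw [J_apply, J_apply]; rfl

/-- the inner product -/
def ip (u : R2 n) : R2 n →L[ℝ] ℝ := flat n (J n u)

theorem ip_apply (u v : R2 n) : ip u v = omega (J n u) v := rfl

theorem ip_eq (u v : R2 n) : ip u v = ∑ i, (u.1 i * v.1 i + u.2 i * v.2 i) := by
  rw [ip_apply, J_apply, omega]
  refine Finset.sum_congr rfl fun i _ => ?_
  simp
  ring

theorem ip_comm (u v : R2 n) : ip u v = ip v u := by
  rw [ip_eq, ip_eq]
  refine Finset.sum_congr rfl fun i _ => ?_
  ring

theorem om_J_right (u v : R2 n) : omega u (J n v) = -ip u v := by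
  rw [om_swap, ip_comm]; rfl

theorem ip_self_eq (u : R2 n) : ip u u = ‖u.1‖ ^ 2 + ‖u.2‖ ^ 2 := by
  rw [ip_eq, EuclideanSpace.norm_sq_eq, EuclideanSpace.norm_sq_eq, ← Finset.sum_add_distrib]
  refine Finset.sum_congr rfl fun i _ => ?_
  rw [Real.norm_eq_abs, Real.norm_eq_abs, sq_abs, sq_abs]
  ring

theorem norm_sq_le (u : R2 n) : ‖u‖ ^ 2 ≤ ip u u := by
  rw [ip_self_eq, Prod.norm_def]
  rcases max_cases ‖u.1‖ ‖u.2‖ with h | h <;> rw [h.1] <;> nlinarith [sq_nonneg ‖u.1‖, sq_nonneg ‖u.2‖]

theorem ip_pos (u : R2 n) (hu : u ≠ 0) : 0 < ip u u := by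
  have h1 : 0 < ‖u‖ := norm_pos_iff.2 hu
  have := norm_sq_le u
  nlinarith

theorem ip_continuous : Continuous (fun u : R2 n => ip u) :=
  (flat n).continuous.comp (J n).continuous

theorem ip_smul (c : ℝ) (u v : R2 n) : ip (c • u) v = c * ip u v := by
  rw [ip_apply, map_smul, om_smul_left]; rfl

/-- the vector representing a functional with respect to the symplectic form -/
def sharp (n : ℕ) : (R2 n →L[ℝ] ℝ) →L[ℝ] R2 n :=
  LinearMap.toContinuousLinearMap
    { toFun := fun l => (WithLp.toLp 2 fun i => l (0, EuclideanSpace.single i 1),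
        WithLp.toLp 2 fun i => -l (EuclideanSpace.single i 1, 0))
      map_add' := fun l l' => by
        refine Prod.ext ?_ ?_
        · ext i
          simp
        · ext i
          simp
          ring
      map_smul' := fun c l => by
        refine Prod.ext ?_ ?_
        · ext i
          simp
        · ext i
          simp }

theorem sharp_fst (l : R2 n →L[ℝ] ℝ) (i : Fin n) :
    (sharp n l).1 i = l (0, EuclideanSpace.single i 1) := rfl

theorem sharp_snd (l : R2 n →L[ℝ] ℝ) (i : Fin n) :
    (sharp n l).2 i = -l (EuclideanSpace.single i 1, 0) := rfl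

theorem omega_sharp (l : R2 n →L[ℝ] ℝ) (v : R2 n) : omega (sharp n l) v = l v := by
  have h1 : v = ∑ i, (v.2 i • ((0, EuclideanSpace.single i 1) : R2 n) +
      v.1 i • ((EuclideanSpace.single i 1, 0) : R2 n)) := by
    refine Prod.ext ?_ ?_
    · ext j
      simp [Prod.fst_sum, Finset.sum_apply, Pi.single_apply]
    · ext j
      simp [Prod.snd_sum, Finset.sum_apply, Pi.single_apply]
  conv_rhs => rw [h1]
  rw [map_sum, omega]
  refine Finset.sum_congr rfl fun i _ => ?_
  rw [sharp_fst, sharp_snd, map_add, map_smul, map_smul, smul_eq_mul, smul_eq_mul]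
  ring

theorem om_inj (u : R2 n) (h : ∀ v, omega u v = 0) : u = 0 := by
  by_contra hne
  have h1 := ip_pos u hne
  have h2 := om_J_right u u
  rw [h] at h2
  linarith

theorem sharp_ip (u : R2 n) : sharp n (ip u) = J n u := by
  have h1 : sharp n (ip u) - J n u = 0 := by
    refine om_inj _ fun v => ?_
    rw [sub_eq_add_neg, om_add_left, om_neg_left, omega_sharp, ip_apply]
    ring
  exact sub_eq_zero.1 h1

end Pool.Agent.Q131.SE
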