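import Pool.Agent.Q131.SE.Om

/-!
# Small symplectomorphisms obtained from a Hamiltonian function by the Cayley transform
-/

set_option autoImplicit false

open Set Filter Topology
open scoped ContDiff

noncomputable section

namespace Pool.Agent.Q131.SE

open Pool.Agent.Q130.SC.Sym

variable {n : ℕ}

/-- the Hamiltonian vector field of `h` -/
def ham (h : R2 n → ℝ) (m : R2 n) : R2 n := sharp n (fderiv ℝ h m)

theorem ham_smooth (h : R2 n → ℝ) (hs : ContDiff ℝ ∞ h) : ContDiff ℝ ∞ (ham h) :=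
  (sharp n).contDiff.comp (hs.fderiv_right (m := ∞) (by simp))

theorem ham_deriv (h : R2 n → ℝ) (hs : ContDiff ℝ ∞ h) (m u : R2 n) :
    fderiv ℝ (ham h) m u = sharp n (fderiv ℝ (fderiv ℝ h) m u) := by
  have hd : DifferentiableAt ℝ (fderiv ℝ h) m :=
    ((hs.fderiv_right (m := ∞) (by simp)).differentiable (by simp)) m
  have h1 : HasFDerivAt (ham h) ((sharp n).comp (fderiv ℝ (fderiv ℝ h) m)) m :=
    (sharp n).hasFDerivAt.comp m hd.hasFDerivAt
  rw [h1.fderiv]; rfl

theorem ham_symm (h : R2 n → ℝ) (hs : ContDiff ℝ ∞ h) (m u v : R2 n) :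
    omega (fderiv ℝ (ham h) m u) v + omega u (fderiv ℝ (ham h) m v) = 0 := by
  have h1 : IsSymmSndFDerivAt ℝ h m := hs.contDiffAt.isSymmSndFDerivAt (by
    rw [minSmoothness_of_isRCLikeNormedField]
    exact WithTop.coe_le_coe.2 le_top)
  have h2 := h1.eq u v
  rw [om_swap u, ham_deriv h hs, ham_deriv h hs, omega_sharp, omega_sharp, h2]
  ring

theorem diffeo_of (X : R2 n → R2 n) (hX : ContDiff ℝ ∞ X) {K : Set (R2 n)} (hK : IsCompact K)
    (hoff : ∀ z, z ∉ K → X z = 0) {L : ℝ} (hL : ∀ m, ‖fderiv ℝ X m‖ ≤ L) (c : ℝ)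
    (hc : |c| * L < 1) : ∃ e : R2 n ≃ R2 n, (∀ m, e m = m + c • X m) ∧ ContDiff ℝ ∞ e ∧
      ContDiff ℝ ∞ e.symm ∧ ∀ m, ∃ f : R2 n ≃L[ℝ] R2 n, HasFDerivAt e (f : R2 n →L[ℝ] R2 n) m ∧
        ∀ u, f u = u + c • fderiv ℝ X m u := by
  have hd : ∀ m, HasFDerivAt (fun m => m + c • X m)
      (ContinuousLinearMap.id ℝ (R2 n) + c • fderiv ℝ X m) m := fun m =>
    (hasFDerivAt_id m).add (((hX.differentiable (by simp)) m).hasFDerivAt.const_smul c)
  have hinj : ∀ m u, u + c • fderiv ℝ X m u = 0 → u = 0 := by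
    intro m u hu
    by_contra hne
    have h0 : 0 < ‖u‖ := norm_pos_iff.2 hne
    have h1 : u = -(c • fderiv ℝ X m u) := eq_neg_of_add_eq_zero_left hu
    have h2 : ‖u‖ ≤ |c| * (L * ‖u‖) := by
      calc ‖u‖ = ‖-(c • fderiv ℝ X m u)‖ := by rw [← h1]
        _ = |c| * ‖fderiv ℝ X m u‖ := by rw [norm_neg, norm_smul, Real.norm_eq_abs]
        _ ≤ |c| * (L * ‖u‖) := by
          refine mul_le_mul_of_nonneg_left ?_ (abs_nonneg c)
          exact (fderiv ℝ X m).le_of_opNorm_le (hL m) u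
    nlinarith
  have hs : ContDiff ℝ ∞ (fun m => m + c • X m) := contDiff_id.add (hX.const_smul c)
  have hbij : Function.Bijective (fun m => m + c • X m) := by
    refine Pool.Agent.Q130.SC.bijective_of_off _ hK hs (fun z hz => ?_) (fun z u hu => ?_)
    · rw [hoff z hz, smul_zero, add_zero]
    · rw [(hd z).fderiv] at hu
      exact hinj z u hu
  have hf : ∀ m, ∃ f : R2 n ≃L[ℝ] R2 n, HasFDerivAt (Equiv.ofBijective _ hbij)
      (f : R2 n →L[ℝ] R2 n) m ∧ ∀ u, f u = u + c • fderiv ℝ X m u := by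
    intro m
    obtain ⟨f, hf⟩ := Pool.Agent.Q130.SC.exists_equiv_of_injective
      (ContinuousLinearMap.id ℝ (R2 n) + c • fderiv ℝ X m) (fun u hu => hinj m u hu)
    refine ⟨f, ?_, fun u => ?_⟩
    · rw [hf]; exact hd m
    · have := congrArg (fun T : R2 n →L[ℝ] R2 n => T u) hf
      exact this
  refine ⟨Equiv.ofBijective _ hbij, fun m => rfl, hs, ?_, hf⟩
  refine Pool.Agent.Q130.SC.contDiff_symm_of_equiv _ hs fun m => ?_
  obtain ⟨f, hf1, -⟩ := hf m
  exact ⟨f, hf1⟩

/-- the Cayley transform of a small multiple of a Hamiltonian vector field -/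
theorem exists_theta (h : R2 n → ℝ) (hs : ContDiff ℝ ∞ h) {K : Set (R2 n)} (hK : IsCompact K)
    (hoff : ∀ z, z ∉ K → ham h z = 0) {L : ℝ} (hL : ∀ m, ‖fderiv ℝ (ham h) m‖ ≤ L) (c : ℝ)
    (hc0 : 0 < c) (hc : c * L < 1) : ∃ θ : SympCt n, Iso 1 θ ∧ ∀ z u, ∃ m v,
      u = v - c • fderiv ℝ (ham h) m v ∧ θ.map z = m + c • ham h m ∧
      fderiv ℝ θ.map z u = v + c • fderiv ℝ (ham h) m v := by
  have hXs := ham_smooth h hs
  obtain ⟨e, he, hes, hesi, hed⟩ := diffeo_of (ham h) hXs hK hoff hL c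
    (by rwa [abs_of_pos hc0])
  obtain ⟨e', he', hes', hesi', hed'⟩ := diffeo_of (ham h) hXs hK hoff hL (-c)
    (by rwa [abs_neg, abs_of_pos hc0])
  have hder : ∀ z u, ∃ m v, z = m - c • ham h m ∧ u = v - c • fderiv ℝ (ham h) m v ∧
      (e'.symm.trans e) z = m + c • ham h m ∧
      fderiv ℝ (e'.symm.trans e) z u = v + c • fderiv ℝ (ham h) m v := by
    intro z u
    obtain ⟨f, hf, hfu⟩ := hed (e'.symm z)
    obtain ⟨f', hf', hfu'⟩ := hed' (e'.symm z)
    have h1 : e' (e'.symm z) = z := e'.apply_symm_apply z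
    have h2 : DifferentiableAt ℝ e'.symm z := (hesi'.differentiable (by simp)) z
    have h3 : fderiv ℝ (e'.symm.trans e) z = (f : R2 n →L[ℝ] R2 n).comp (fderiv ℝ e'.symm z) :=
      (hf.comp z h2.hasFDerivAt).fderiv
    have h4 : ∀ u, f' (fderiv ℝ e'.symm z u) = u := by
      intro u
      have h5 : HasFDerivAt (e' ∘ e'.symm) ((f' : R2 n →L[ℝ] R2 n).comp (fderiv ℝ e'.symm z)) z :=
        hf'.comp z h2.hasFDerivAt
      have h6 : (e' ∘ e'.symm : R2 n → R2 n) = id := by ext1 w; simp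
      rw [h6] at h5
      have h7 := h5.unique (hasFDerivAt_id z)
      exact congrArg (fun T : R2 n →L[ℝ] R2 n => T u) h7
    refine ⟨e'.symm z, fderiv ℝ e'.symm z u, ?_, ?_, ?_, ?_⟩
    · have h5 := he' (e'.symm z)
      rw [h1, neg_smul, ← sub_eq_add_neg] at h5
      exact h5
    · have h5 := hfu' (fderiv ℝ e'.symm z u)
      rw [h4, neg_smul, ← sub_eq_add_neg] at h5
      exact h5
    · exact he (e'.symm z)
    · rw [h3]
      exact hfu _
  have hdw : ∀ z, ∀ u v : R2 n, omega (fderiv ℝ (e'.symm.trans e) z u)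
      (fderiv ℝ (e'.symm.trans e) z v) = omega u v := by
    intro z u v
    obtain ⟨m, u', h1, h2, h3, h4⟩ := hder z u
    obtain ⟨m', v', h1', h2', h3', h4'⟩ := hder z v
    have hm : m' = m := by
      have e1 : e' m = z := by rw [he', h1, neg_smul, ← sub_eq_add_neg]
      have e2 : e' m' = z := by
        have := he' m'
        rw [neg_smul, ← sub_eq_add_neg, ← h1'] at this
        exact this
      exact e'.injective (e2.trans e1.symm)
    subst hm
    rw [h4, h4', h2, h2']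
    have h5 := ham_symm h hs m' u' v'
    simp only [sub_eq_add_neg, om_add_left, om_add_right, om_neg_left, om_neg_right,
      om_smul_left, om_smul_right]
    linear_combination 2 * c * h5
  obtain ⟨θ, hθ⟩ : ∃ θ : SympCt n, θ.map = e'.symm.trans e := ⟨
    { map := e'.symm.trans e
      smooth' := hes.comp hesi'
      smooth_symm' := hes'.comp hesi
      symplectic' := hdw
      compactSupport := ⟨K, hK, fun z hz => by
        have h1 : e' z = z := by rw [he', hoff z hz, smul_zero, add_zero]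
        have h2 : e'.symm z = z := by rw [Equiv.symm_apply_eq, h1]
        rw [Equiv.trans_apply, h2, he, hoff z hz, smul_zero, add_zero]⟩ }, rfl⟩
  refine ⟨θ, iso_of_noNeg θ fun z u μ hμ hu => ?_, fun z u => ?_⟩
  · rw [hθ] at hu
    obtain ⟨m, v, -, h2, -, h4⟩ := hder z u
    have hu' : fderiv ℝ (e'.symm.trans e) z u = μ • u := hu
    rw [h4] at hu'
    have hv : v = 0 := by
      by_contra hne
      have h0 : 0 < ‖v‖ := norm_pos_iff.2 hne
      have h5 : (1 - μ) • v = -((1 + μ) • (c • fderiv ℝ (ham h) m v)) := by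
        rw [h2] at hu'
        rw [smul_sub] at hu'
        rw [sub_smul, add_smul, one_smul, one_smul]
        rw [eq_neg_iff_add_eq_zero]
        have h6 : v + c • fderiv ℝ (ham h) m v - (μ • v - μ • c • fderiv ℝ (ham h) m v) = 0 := by
          rw [hu', sub_self]
        rw [← h6]
        abel
      have h6 : ‖(1 - μ) • v‖ = ‖(1 + μ) • (c • fderiv ℝ (ham h) m v)‖ := by rw [h5, norm_neg]
      rw [norm_smul, norm_smul, norm_smul, Real.norm_eq_abs, Real.norm_eq_abs, Real.norm_eq_abs,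
        abs_of_pos (by linarith : 0 < 1 - μ), abs_of_pos hc0] at h6
      have h7 : |1 + μ| ≤ 1 - μ := by
        rw [abs_le]; constructor <;> linarith
      have h8 : ‖fderiv ℝ (ham h) m v‖ ≤ L * ‖v‖ := (fderiv ℝ (ham h) m).le_of_opNorm_le (hL m) v
      have h9 : |1 + μ| * (c * ‖fderiv ℝ (ham h) m v‖) ≤ (1 - μ) * (c * (L * ‖v‖)) := by
        refine mul_le_mul h7 (mul_le_mul_of_nonneg_left h8 hc0.le) (by positivity) (by linarith)
      have h10 : (1 - μ) * ‖v‖ ≤ (1 - μ) * ‖v‖ * (c * L) := by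
        calc (1 - μ) * ‖v‖ = _ := h6
          _ ≤ _ := h9
          _ = (1 - μ) * ‖v‖ * (c * L) := by ring
      have h11 : 0 < (1 - μ) * ‖v‖ := mul_pos (by linarith) h0
      nlinarith
    rw [h2, hv, map_zero, smul_zero, sub_zero]
  · rw [hθ]
    obtain ⟨m, v, -, h2, h3, h4⟩ := hder z u
    exact ⟨m, v, h2, h3, h4⟩

end Pool.Agent.Q131.SE
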